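import Pool.Agent.H74.OLP.Targets

/-!
# Board MP_781dd6_co, row TAI: a minimal odd walk after adding a geodesic
-/

set_option autoImplicit false

namespace Pool.Agent.H14.OLP

open Finset Pool.Agent.H74.OLP
open scoped Classical

theorem pf_TAI (h1 : T_POT) (h2 : T_TLP) : T_TAI := by
  intro F T DD ω w t t' S hconn hDD hω ht htw hSne hSc hnull hnn
  -- (1) the shortest closed walk with sum one
  have hex : ∃ k, ∃ (x : F) (p : T.Walk x x), ws T ω p = 1 ∧ p.length = k := by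
    unfold Null at hnn
    push Not at hnn
    obtain ⟨x, p, -, hp⟩ := hnn
    exact ⟨_, x, p, (Rne _).1 hp, rfl⟩
  obtain ⟨m0, x0, P0, hP0, hP0l, hP0m⟩ : ∃ (m0 : ℕ) (x0 : F) (P0 : T.Walk x0 x0),
      ws T ω P0 = 1 ∧ P0.length = m0 ∧
      ∀ x (p : T.Walk x x), ws T ω p = 1 → m0 ≤ p.length := by
    obtain ⟨x, p, hp, hl⟩ := Nat.find_spec hex
    exact ⟨_, x, p, hp, hl, fun y q hq => Nat.find_min' hex ⟨y, q, hq, rfl⟩⟩
  -- (2) the shortest walk from S to this walk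
  have hex2 : ∃ k, ∃ y ∈ P0.support, ∃ s ∈ S, ∃ p : T.Walk s y, p.length = k := by
    obtain ⟨s, hs⟩ := hSne
    obtain ⟨p⟩ := hconn s x0
    exact ⟨_, x0, P0.start_mem_support, s, hs, p, rfl⟩
  obtain ⟨n, y, hy, s, hs, R0, hR0l, hR0m⟩ : ∃ (n : ℕ) (y : F) (_ : y ∈ P0.support) (s : F)
      (_ : s ∈ S) (R0 : T.Walk s y), R0.length = n ∧
      ∀ y' ∈ P0.support, ∀ s' ∈ S, ∀ p : T.Walk s' y', n ≤ p.length := by
    obtain ⟨y, hy, s, hs, p, hl⟩ := Nat.find_spec hex2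
    exact ⟨_, y, hy, s, hs, p, hl, fun y' hy' s' hs' q =>
      Nat.find_min' hex2 ⟨y', hy', s', hs', q, rfl⟩⟩
  obtain ⟨hr, hr0, hrn, -, -⟩ := wfun T R0
  rw [hR0l] at hr hrn
  set r := R0.getVert with hrd
  have hr0S : r 0 ∈ S := by rw [hr0]; exact hs
  -- (3)
  have hdist : ∀ i ≤ n, ∀ s' ∈ S, ∀ p : T.Walk (r i) s', i ≤ p.length := by
    intro i hi s' hs' p
    obtain ⟨q, hq, -, -⟩ := seg T r i n hi fun k _ hk => hr k hk
    have h3 := hR0m (r n) (by rw [hrn]; exact hy) s' hs' (p.reverse.append q)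
    rw [SimpleGraph.Walk.length_append, SimpleGraph.Walk.length_reverse, hq] at h3
    omega
  -- (4)
  have hcon1 : ∀ x ∈ S ∪ Im r n, ∃ p : T.Walk x (r 0), ∀ z ∈ p.support, z ∈ S ∪ Im r n := by
    rintro x (hx | ⟨i, hi, rfl⟩)
    · obtain ⟨p, hp⟩ := hSc x hx (r 0) hr0S
      exact ⟨p, fun z hz => Or.inl (hp z hz)⟩
    · obtain ⟨p, -, -, hp⟩ := seg T r 0 i (Nat.zero_le i) fun k _ hk => hr k (by omega)
      refine ⟨p.reverse, fun z hz => Or.inr ?_⟩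
      rw [SimpleGraph.Walk.support_reverse, List.mem_reverse] at hz
      obtain ⟨k, -, hk, rfl⟩ := hp z hz
      exact ⟨k, by omega, rfl⟩
  have hcon : Con T (S ∪ Im r n) := by
    intro x hx x' hx'
    obtain ⟨p, hp⟩ := hcon1 x hx
    obtain ⟨p', hp'⟩ := hcon1 x' hx'
    refine ⟨p.append p'.reverse, fun z hz => ?_⟩
    rw [SimpleGraph.Walk.mem_support_append_iff, SimpleGraph.Walk.support_reverse,
      List.mem_reverse] at hz
    exact hz.elim (hp z) (hp' z)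
  -- (5)
  have hnull1 : ∀ D ∈ DD, Null T D (Nb T t' (S ∪ Im r n)) := by
    intro D hD
    obtain ⟨gD, hgD⟩ := h1 F T D (Nb T t S) (hDD D hD).1 (hnull D hD)
    exact h2 F T D w t t' S gD r n (hDD D hD) ht htw hgD hr hr0S hdist
  -- (6)
  obtain ⟨g, hg⟩ := h1 F T ω (Nb T t' (S ∪ Im r n)) (hDD ω hω).1 (hnull1 ω hω)
  have hpot : Pot T (fun u v => ω u v + (g u + g v)) (Nb T t' (S ∪ Im r n)) (fun _ => 0) := by
    intro x hx x' hx' hxx
    change ω x x' + (g x + g x') = 0 + 0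
    rw [hg x hx x' hx' hxx, R2, add_zero]
  -- (7)
  have hyS : y ∈ S ∪ Im r n := Or.inr ⟨n, le_rfl, hrn.symm⟩
  obtain ⟨P1, hP1, hP1l⟩ : ∃ P1 : T.Walk y y,
      ws T (fun u v => ω u v + (g u + g v)) P1 = 1 ∧ P1.length = m0 := by
    have h3 := P0.take_spec hy
    refine ⟨(P0.dropUntil y hy).append (P0.takeUntil y hy), ?_, ?_⟩
    · rw [ws_gauge, ws_append, add_comm, ← ws_append, h3, hP0]
    · rw [SimpleGraph.Walk.length_append, add_comm, ← SimpleGraph.Walk.length_append, h3, hP0l]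
  -- (8)
  have hex3 : ∃ k, ∃ x ∈ S ∪ Im r n, ∃ x' ∈ S ∪ Im r n, ∃ p : T.Walk x x',
      ws T (fun u v => ω u v + (g u + g v)) p = 1 ∧ p.length = k :=
    ⟨_, y, hyS, y, hyS, P1, hP1, rfl⟩
  obtain ⟨m, u, hu, v, hv, Om, hOm, hOml, hOmm⟩ : ∃ (m : ℕ) (u : F) (_ : u ∈ S ∪ Im r n)
      (v : F) (_ : v ∈ S ∪ Im r n) (Om : T.Walk u v),
      ws T (fun u v => ω u v + (g u + g v)) Om = 1 ∧ Om.length = m ∧
      ∀ x ∈ S ∪ Im r n, ∀ x' ∈ S ∪ Im r n, ∀ p : T.Walk x x',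
        ws T (fun u v => ω u v + (g u + g v)) p = 1 → m ≤ p.length := by
    obtain ⟨u, hu, v, hv, p, hp, hl⟩ := Nat.find_spec hex3
    exact ⟨_, u, hu, v, hv, p, hp, hl, fun x hx x' hx' q hq =>
      Nat.find_min' hex3 ⟨x, hx, x', hx', q, hq, rfl⟩⟩
  obtain ⟨hz, hz0, hzm, hzs, -⟩ := wfun T Om
  rw [hOml] at hz hzm hzs
  refine ⟨S ∪ Im r n, g, Om.getVert, m, Set.subset_union_left, hcon, hnull1, hpot,
    ⟨hz, by rw [hz0]; exact hu, by rw [hzm]; exact hv, by rw [hzs, hOm], ?_, hOmm⟩⟩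
  intro x p hp
  rw [ws_gauge] at hp
  have h3 := hP0m x p hp
  have h4 := hOmm y hyS y hyS P1 hP1
  omega

end Pool.Agent.H14.OLP
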