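import Pool.Agent.H74.OLP.Targets

/-!
# Board MP_781dd6_co, row TLP: adding a geodesic
-/

set_option autoImplicit false

namespace Pool.Agent.H14.OLP

open Finset Pool.Agent.H74.OLP
open scoped Classical

theorem pf_TLP (h1 : T_EXT) : T_TLP := by
  intro F T D w t t' S g r n hD ht htw hg hr hr0 hdist
  have hsy : Sy D := hD.1
  -- from S to S
  have hSS : ∀ s ∈ S, ∀ s' ∈ S, ∀ Q : T.Walk s s', Q.length ≤ 2 * t' + 1 →
      ws T D Q = g s + g s' := by
    intro s hs s' hs' Q hQ
    exact pot_walk T hg Q fun y hy => Nb_mono T (by omega) subset_rfl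
      (Nb_ends T hs hs' Q hQ y hy)
  -- from r i to S
  have hRS : ∀ i ≤ n, ∀ s ∈ S, ∀ Q : T.Walk (r i) s, Q.length ≤ 2 * t' + 1 →
      ws T D Q = (g (r 0) + fs D r 0 i) + g s := by
    intro i hi s hs Q hQ
    have h2 := hdist i hi s hs Q
    obtain ⟨p, hp1, hp2, -⟩ := seg T r 0 i (Nat.zero_le i) fun k _ hk => hr k (by omega)
    have h3 : ws T D (p.append Q) = g (r 0) + g s :=
      pot_walk T hg _ (Nb_ends T hr0 hs _ (by
        rw [SimpleGraph.Walk.length_append]
        omega))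
    rw [ws_append, hp2] at h3
    have h4 := R2 (fs D r 0 i)
    linear_combination h3 - h4
  -- from r i to r j, i ≤ j
  have hRR : ∀ i j, i ≤ j → j ≤ n → ∀ Q : T.Walk (r i) (r j), Q.length ≤ 2 * t' + 1 →
      ws T D Q = (g (r 0) + fs D r 0 i) + (g (r 0) + fs D r 0 j) := by
    intro i j hij hj Q hQ
    obtain ⟨p, hp1, hp2, -⟩ := seg T r 0 i (Nat.zero_le i) fun k _ hk => hr k (by omega)
    obtain ⟨p', hp1', hp2', -⟩ := seg T r i j hij fun k _ hk => hr k (by omega)
    have h2 := hdist j hj (r 0) hr0 (Q.reverse.append p.reverse)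
    rw [SimpleGraph.Walk.length_append, SimpleGraph.Walk.length_reverse,
      SimpleGraph.Walk.length_reverse] at h2
    have h3 := hD.2 (r i) (Q.append p'.reverse) (by
      rw [SimpleGraph.Walk.length_append, SimpleGraph.Walk.length_reverse]
      omega)
    rw [ws_append, ws_reverse T hsy, hp2'] at h3
    rw [fs_split D r (Nat.zero_le i) hij]
    have h4 := R2 (g (r 0))
    have h5 := R2 (fs D r 0 i)
    have h6 := R2 (fs D r i j)
    linear_combination h3 - h4 - h5 - h6
  obtain ⟨g', hg', -⟩ := h1 F T D ({x // x ∈ S} ⊕ {i : ℕ // i ≤ n})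
    (Sum.elim (fun s => s.1) (fun i => r i.1))
    (Sum.elim (fun s => g s.1) (fun i => g (r 0) + fs D r 0 i.1)) t' hsy (by
      rintro (⟨s, hs⟩ | ⟨i, hi⟩) (⟨s', hs'⟩ | ⟨j, hj⟩) Q hQ
      · exact hSS s hs s' hs' Q hQ
      · have h2 := hRS j hj s hs Q.reverse ((SimpleGraph.Walk.length_reverse Q).trans_le hQ)
        exact ((ws_reverse T hsy Q).symm.trans h2).trans (add_comm _ _)
      · exact hRS i hi s' hs' Q hQ
      · rcases le_total i j with hij | hij
        · exact hRR i j hij hj Q hQ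
        · have h2 := hRR j i hij hi Q.reverse
            ((SimpleGraph.Walk.length_reverse Q).trans_le hQ)
          exact ((ws_reverse T hsy Q).symm.trans h2).trans (add_comm _ _))
  refine null_mono T (null_of_pot T hg') (Nb_mono T le_rfl ?_)
  rintro x (hx | ⟨i, hi, rfl⟩)
  · exact ⟨Sum.inl ⟨x, hx⟩, rfl⟩
  · exact ⟨Sum.inr ⟨i, hi⟩, rfl⟩

end Pool.Agent.H14.OLP
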